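import Pool.Agent.Y489.GE.Stm

/-!
# Short closed geodesics from isometric involutions
-/

set_option autoImplicit false

open Set Topology

noncomputable section

namespace Pool.Agent.R770.IV

open Pool.Agent.Y489.GE

variable {X : Type} [MetricSpace X]

/-- minimal geodesics parametrised by arc length -/
lemma exists_arc (hX : GeodSpace X) (x y : X) :
    ∃ c : ℝ → X, c 0 = x ∧ c (dist x y) = y ∧
      ∀ s ∈ Icc (0:ℝ) (dist x y), ∀ t ∈ Icc (0:ℝ) (dist x y), dist (c s) (c t) = |s - t| := by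
  obtain ⟨c, h0, h1, hc⟩ := hX x y
  rcases eq_or_lt_of_le (dist_nonneg (x := x) (y := y)) with h | h
  · have hxy : x = y := dist_eq_zero.1 h.symm
    refine ⟨fun _ => x, rfl, hxy, ?_⟩
    intro s hs t ht
    rw [← h] at hs ht
    have hs0 : s = 0 := le_antisymm hs.2 hs.1
    have ht0 : t = 0 := le_antisymm ht.2 ht.1
    simp [hs0, ht0]
  · refine ⟨fun t => c (t / dist x y), by simp [h0], by simp [div_self h.ne', h1], ?_⟩
    intro s hs t ht
    have h' := hc (s / dist x y) ⟨div_nonneg hs.1 h.le, (div_le_one h).2 hs.2⟩ (t / dist x y)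
      ⟨div_nonneg ht.1 h.le, (div_le_one h).2 ht.2⟩
    simp only
    rw [h', ← sub_div, abs_div, abs_of_pos h]
    field_simp

/-- a minimal geodesic (or a union of such) from `x` to `g x`, smooth at the junction, is extended
by the powers of `g` to a closed geodesic -/
lemma glue (g : X ≃ᵢ X) (k : ℕ) (hk : 0 < k) (hg : g ^ k = 1) (c : ℝ → X) (D ε : ℝ) (hD : 0 < D)
    (hε : 0 < ε)
    (hc : ∀ s ∈ Icc (0:ℝ) D, ∀ t ∈ Icc (0:ℝ) D, |s - t| ≤ ε → dist (c s) (c t) = |s - t|)
    (hj : ∀ s t : ℝ, 0 ≤ s → 0 ≤ t → s + t ≤ ε → s ≤ D → t ≤ D →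
      dist (c (D - s)) (g (c t)) = s + t) :
    ClosedGeod X (k * D) := by
  set Γ : ℝ → X := fun t => (g ^ ⌊t / D⌋) (c (D * Int.fract (t / D))) with hΓ
  have hfr : ∀ t : ℝ, D * Int.fract (t / D) = t - D * ⌊t / D⌋ := by
    intro t
    rw [Int.fract, mul_sub, mul_div_cancel₀ _ hD.ne']
  have hfr0 : ∀ t : ℝ, 0 ≤ t - D * ⌊t / D⌋ := by
    intro t
    rw [← hfr]
    exact mul_nonneg hD.le (Int.fract_nonneg _)
  have hfr1 : ∀ t : ℝ, t - D * ⌊t / D⌋ ≤ D := by
    intro t
    rw [← hfr]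
    calc D * Int.fract (t / D) ≤ D * 1 :=
          mul_le_mul_of_nonneg_left (Int.fract_lt_one _).le hD.le
      _ = D := mul_one D
  have key : ∀ s t : ℝ, s ≤ t → t - s ≤ min ε D → dist (Γ s) (Γ t) = t - s := by
    intro s t hst hle
    have hleε : t - s ≤ ε := hle.trans (min_le_left _ _)
    have hleD : t - s ≤ D := hle.trans (min_le_right _ _)
    have hm1 : ⌊s / D⌋ ≤ ⌊t / D⌋ := Int.floor_le_floor (div_le_div_of_nonneg_right hst hD.le)
    have hm2 : ⌊t / D⌋ ≤ ⌊s / D⌋ + 1 := by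
      have h1 : t / D ≤ s / D + 1 := by
        rw [div_add_one hD.ne']
        exact div_le_div_of_nonneg_right (by linarith) hD.le
      calc ⌊t / D⌋ ≤ ⌊s / D + 1⌋ := Int.floor_le_floor h1
        _ = ⌊s / D⌋ + 1 := Int.floor_add_one _
    simp only [hΓ]
    rw [hfr, hfr]
    rcases (show ⌊t / D⌋ = ⌊s / D⌋ ∨ ⌊t / D⌋ = ⌊s / D⌋ + 1 by omega) with h | h
    · have ht0 := hfr0 t
      have ht1 := hfr1 t
      rw [h] at ht0 ht1 ⊢
      rw [IsometryEquiv.dist_eq, hc _ ⟨hfr0 s, hfr1 s⟩ _ ⟨ht0, ht1⟩]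
      · rw [show s - D * (⌊s / D⌋ : ℝ) - (t - D * ⌊s / D⌋) = -(t - s) by ring, abs_neg,
          abs_of_nonneg (by linarith)]
      · rw [show s - D * (⌊s / D⌋ : ℝ) - (t - D * ⌊s / D⌋) = -(t - s) by ring, abs_neg,
          abs_of_nonneg (by linarith)]
        exact hleε
    · have ht0 := hfr0 t
      have ht1 := hfr1 t
      have hs0 := hfr0 s
      have hs1 := hfr1 s
      rw [h] at ht0 ht1 ⊢
      push_cast at ht0 ht1 ⊢
      rw [zpow_add, zpow_one, IsometryEquiv.mul_apply, IsometryEquiv.dist_eq]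
      have h3 := hj (D - (s - D * ⌊s / D⌋)) (t - D * (⌊s / D⌋ + 1)) (by linarith) ht0
        (by linarith) (by linarith) ht1
      rw [show D - (D - (s - D * (⌊s / D⌋ : ℝ))) = s - D * ⌊s / D⌋ by ring] at h3
      rw [h3]
      ring
  refine ⟨Γ, k * D, by positivity, le_rfl, ?_, min ε D, lt_min hε hD, ?_⟩
  · intro t
    have h1 : (t + k * D) / D = t / D + (k : ℤ) := by
      field_simp
      push_cast
      ring
    simp only [hΓ]
    rw [h1, Int.floor_add_intCast, Int.fract_add_intCast, zpow_add, zpow_natCast, hg, mul_one]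
  · intro s t hst
    rcases le_total s t with h | h
    · rw [abs_sub_comm, abs_of_nonneg (by linarith)] at hst ⊢
      exact key s t h hst
    · rw [abs_of_nonneg (by linarith)] at hst ⊢
      rw [dist_comm]
      exact key t s h hst

/-- a minimal geodesic from a part `A` of the fixed set of an involution is reflected at `A` -/
lemma reflect (hX : GeodSpace X) {r : ℝ} (hr : 0 < r) (hU : UniqGeod X r) (φ : X ≃ᵢ X)
    (hφ : ∀ x, φ (φ x) = x) (A : Set X) (hA : A ⊆ {x | φ x = x})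
    (hA' : IsClosed ({x | φ x = x} \ A))
    (a b : X) (ha : a ∈ A) (hmin : ∀ a' ∈ A, dist a b ≤ dist a' b) (hab : 0 < dist a b)
    (γ : ℝ → X) (h0 : γ 0 = a) (h1 : γ (dist a b) = b)
    (hγ : ∀ s ∈ Icc (0:ℝ) (dist a b), ∀ t ∈ Icc (0:ℝ) (dist a b), dist (γ s) (γ t) = |s - t|) :
    ∃ ε : ℝ, 0 < ε ∧ ε ≤ dist a b ∧ ∀ s t : ℝ, 0 ≤ s → 0 ≤ t → s ≤ ε → t ≤ ε →
      dist (γ s) (φ (γ t)) = s + t := by
  have hφa : φ a = a := hA ha
  -- the other part of the fixed set is far from `a`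
  obtain ⟨η, hη, hball⟩ : ∃ η > 0, Metric.ball a η ⊆ ({x | φ x = x} \ A)ᶜ := by
    apply Metric.isOpen_iff.1 hA'.isOpen_compl a
    intro h
    exact h.2 ha
  set ε := min (dist a b) (min (r / 3) (η / 3)) with hε
  have hε0 : 0 < ε := lt_min hab (lt_min (by linarith) (by linarith))
  have hε1 : ε ≤ dist a b := min_le_left _ _
  have hε2 : ε ≤ r / 3 := (min_le_right _ _).trans (min_le_left _ _)
  have hε3 : ε ≤ η / 3 := (min_le_right _ _).trans (min_le_right _ _)
  have hmem : ∀ t, 0 ≤ t → t ≤ ε → t ∈ Icc (0:ℝ) (dist a b) := fun t h h' => ⟨h, h'.trans hε1⟩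
  have hda : ∀ t, 0 ≤ t → t ≤ ε → dist (γ t) a = t := by
    intro t ht ht'
    rw [← h0, hγ t (hmem t ht ht') 0 ⟨le_rfl, hab.le⟩, sub_zero, abs_of_nonneg ht]
  have hda' : ∀ t, 0 ≤ t → t ≤ ε → dist a (φ (γ t)) = t := by
    intro t ht ht'
    rw [← hφa, IsometryEquiv.dist_eq, dist_comm, hda t ht ht']
  have hdb : ∀ t, 0 ≤ t → t ≤ ε → dist (γ t) b = dist a b - t := by
    intro t ht ht'
    conv_lhs => rw [← h1]
    rw [hγ t (hmem t ht ht') _ ⟨hab.le, le_rfl⟩, abs_sub_comm,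
      abs_of_nonneg (sub_nonneg.2 (ht'.trans hε1))]
  -- the diagonal case
  have diag : ∀ t, 0 ≤ t → t ≤ ε → 2 * t ≤ dist (γ t) (φ (γ t)) := by
    intro t ht ht'
    set x := γ t with hx
    have hle : dist x (φ x) ≤ 2 * t := by
      calc dist x (φ x) ≤ dist x a + dist a (φ x) := dist_triangle _ _ _
        _ = 2 * t := by rw [hda t ht ht', hda' t ht ht']; ring
    obtain ⟨c, c0, c1, hc⟩ := hX x (φ x)
    set m := c (1 / 2) with hm
    have hxm : dist x m = dist x (φ x) / 2 := by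
      rw [← c0, hm, hc 0 ⟨le_rfl, zero_le_one⟩ (1/2) ⟨by norm_num, by norm_num⟩, c0]
      rw [show |(0:ℝ) - 1 / 2| = 1 / 2 by norm_num [abs_of_neg]]
      ring
    have hmx : dist m (φ x) = dist x (φ x) / 2 := by
      have := hc (1/2) ⟨by norm_num, by norm_num⟩ 1 ⟨zero_le_one, le_rfl⟩
      rw [c1] at this
      rw [hm, this, show |(1:ℝ) / 2 - 1| = 1 / 2 by norm_num [abs_of_neg]]
      ring
    have hxm' : dist x (φ m) = dist x (φ x) / 2 := by
      calc dist x (φ m) = dist (φ x) (φ (φ m)) := (IsometryEquiv.dist_eq φ _ _).symm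
        _ = dist (φ x) m := by rw [hφ]
        _ = dist m (φ x) := dist_comm _ _
        _ = _ := hmx
    have hmx' : dist (φ m) (φ x) = dist x (φ x) / 2 := by
      rw [IsometryEquiv.dist_eq, dist_comm, hxm]
    have hfix : m = φ m := by
      apply hU x (φ x) m (φ m)
      · linarith
      · rw [hxm, hmx]; ring
      · rw [hxm', hmx']; ring
      · rw [hxm, hxm']
    have hma : dist m a < η := by
      calc dist m a ≤ dist m x + dist x a := dist_triangle _ _ _
        _ = dist x (φ x) / 2 + t := by rw [dist_comm m x, hxm, hda t ht ht']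
        _ ≤ 2 * t := by linarith
        _ < η := by linarith
    have hmA : m ∈ A := by
      by_contra hcon
      exact hball (Metric.mem_ball.2 hma) ⟨hfix.symm, hcon⟩
    have h2 := hmin m hmA
    have h3 : dist m b ≤ dist x (φ x) / 2 + (dist a b - t) := by
      calc dist m b ≤ dist m x + dist x b := dist_triangle _ _ _
        _ = _ := by rw [dist_comm m x, hxm, hdb t ht ht']
    linarith
  refine ⟨ε, hε0, hε1, ?_⟩
  intro s t hs ht hs' ht'
  apply le_antisymm
  · calc dist (γ s) (φ (γ t)) ≤ dist (γ s) a + dist a (φ (γ t)) := dist_triangle _ _ _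
      _ = s + t := by rw [hda s hs hs', hda' t ht ht']
  · rcases le_total s t with h | h
    · have h4 := diag t ht ht'
      have h5 : dist (γ t) (φ (γ t)) ≤ dist (γ t) (γ s) + dist (γ s) (φ (γ t)) :=
        dist_triangle _ _ _
      rw [hγ t (hmem t ht ht') s (hmem s hs hs'), abs_of_nonneg (by linarith)] at h5
      linarith
    · have h4 := diag s hs hs'
      have h5 : dist (γ s) (φ (γ s)) ≤ dist (γ s) (φ (γ t)) + dist (φ (γ t)) (φ (γ s)) :=
        dist_triangle _ _ _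
      rw [IsometryEquiv.dist_eq, hγ t (hmem t ht ht') s (hmem s hs hs'), abs_sub_comm,
        abs_of_nonneg (by linarith)] at h5
      linarith

/-- isometries of finite order without fixed points -/
theorem cyclic [CompactSpace X] (hX : GeodSpace X) (g : X ≃ᵢ X) (k : ℕ) (hk : 0 < k)
    (hg : g ^ k = 1) (hfix : ∀ x, g x ≠ x) (x₀ : X) : ClosedGeod X (k * dist x₀ (g x₀)) := by
  have hcont : Continuous fun x => dist x (g x) := continuous_id.dist g.continuous
  obtain ⟨x, -, hx⟩ := isCompact_univ.exists_isMinOn (⟨x₀, mem_univ _⟩ : (univ : Set X).Nonempty)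
    hcont.continuousOn
  have hmin : ∀ y, dist x (g x) ≤ dist y (g y) := fun y => hx (mem_univ y)
  have hD : 0 < dist x (g x) := dist_pos.2 (hfix x).symm
  obtain ⟨c, c0, c1, hc⟩ := exists_arc hX x (g x)
  have h := glue g k hk hg c (dist x (g x)) (dist x (g x)) hD hD (fun s hs t ht _ => hc s hs t ht)
    (by
      intro s t hs ht hst hs' ht'
      set D := dist x (g x)
      have hm : D - s ∈ Icc (0:ℝ) D := ⟨by linarith, by linarith⟩
      have hmt : t ∈ Icc (0:ℝ) D := ⟨ht, ht'⟩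
      have h1 : dist (c (D - s)) (g x) = s := by
        have := hc (D - s) hm D ⟨hD.le, le_rfl⟩
        rw [c1] at this
        rw [this, show D - s - D = -s by ring, abs_neg, abs_of_nonneg hs]
      have h2 : dist (g x) (g (c t)) = t := by
        rw [IsometryEquiv.dist_eq, ← c0, hc 0 ⟨le_rfl, hD.le⟩ t hmt, zero_sub, abs_neg,
          abs_of_nonneg ht]
      apply le_antisymm
      · calc dist (c (D - s)) (g (c t)) ≤ dist (c (D - s)) (g x) + dist (g x) (g (c t)) :=
              dist_triangle _ _ _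
          _ = s + t := by rw [h1, h2]
      · have h3 := hmin (c t)
        have h4 : dist (c t) (g (c t)) ≤ dist (c t) (c (D - s)) + dist (c (D - s)) (g (c t)) :=
          dist_triangle _ _ _
        rw [hc t hmt (D - s) hm, abs_sub_comm, abs_of_nonneg (by linarith)] at h4
        linarith)
  obtain ⟨γ, ℓ, h1, h2, h3⟩ := h
  exact ⟨γ, ℓ, h1, h2.trans (mul_le_mul_of_nonneg_left (hmin x₀) (Nat.cast_nonneg k)), h3⟩

/-- the dihedral case -/
theorem dihedral [CompactSpace X] (hX : GeodSpace X) {r : ℝ} (hr : 0 < r) (hU : UniqGeod X r)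
    (φ ψ : X ≃ᵢ X) (hφ : ∀ x, φ (φ x) = x) (hψ : ∀ x, ψ (ψ x) = x) (k : ℕ) (hk : 0 < k)
    (hφψ : (ψ * φ) ^ k = 1) (A B : Set X) (hA : A ⊆ {x | φ x = x}) (hB : B ⊆ {x | ψ x = x})
    (hAc : IsClosed A) (hBc : IsClosed B) (hA' : IsClosed ({x | φ x = x} \ A))
    (hB' : IsClosed ({x | ψ x = x} \ B)) (hd : Disjoint A B) (a₀ b₀ : X) (ha₀ : a₀ ∈ A)
    (hb₀ : b₀ ∈ B) : ClosedGeod X (2 * k * dist a₀ b₀) := by
  have hcomp : IsCompact (A ×ˢ B) := hAc.isCompact.prod hBc.isCompact
  obtain ⟨⟨a, b⟩, hab, hmin⟩ := hcomp.exists_isMinOn ⟨(a₀, b₀), ha₀, hb₀⟩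
    (continuous_dist.continuousOn (s := A ×ˢ B))
  obtain ⟨ha, hb⟩ : a ∈ A ∧ b ∈ B := hab
  have hmin' : ∀ a' ∈ A, ∀ b' ∈ B, dist a b ≤ dist a' b' := fun a' h b' h' =>
    hmin (show (a', b') ∈ A ×ˢ B from ⟨h, h'⟩)
  have hne : a ≠ b := fun h => (Set.disjoint_left.1 hd ha) (h ▸ hb)
  have hD : 0 < dist a b := dist_pos.2 hne
  obtain ⟨γ, h0, h1, hγ⟩ := exists_arc hX a b
  obtain ⟨ε₁, hε₁, hε₁', hr₁⟩ := reflect hX hr hU φ hφ A hA hA' a b ha
    (fun a' h => hmin' a' h b hb) hD γ h0 h1 hγ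
  have hrev := reflect hX hr hU ψ hψ B hB hB' b a hb
    (fun b' h => by rw [dist_comm b a, dist_comm b' a]; exact hmin' a ha b' h)
    (by rw [dist_comm]; exact hD) (fun t => γ (dist a b - t)) (by simp [h1])
    (by simp [dist_comm b a, h0])
    (by
      intro s hs t ht
      rw [dist_comm b a] at hs ht
      rw [hγ (dist a b - s) ⟨by linarith [hs.2], by linarith [hs.1]⟩ (dist a b - t)
        ⟨by linarith [ht.2], by linarith [ht.1]⟩,
        show dist a b - s - (dist a b - t) = -(s - t) by ring, abs_neg])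
  obtain ⟨ε₂, hε₂, hε₂', hr₂⟩ := hrev
  rw [dist_comm b a] at hε₂'
  set δ := dist a b with hδ
  set c : ℝ → X := fun t => if t ≤ δ then φ (γ (δ - t)) else γ (t - δ) with hcdef
  have hc1 : ∀ t, t ≤ δ → c t = φ (γ (δ - t)) := fun t ht => by simp only [hcdef, if_pos ht]
  have hc2 : ∀ t, δ ≤ t → c t = γ (t - δ) := by
    intro t ht
    rcases eq_or_lt_of_le ht with h | h
    · rw [← h, hc1 δ le_rfl, sub_self, h0]
      exact hA ha
    · simp only [hcdef, if_neg (not_le.2 h)]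
  have key : ∀ s t, s ∈ Icc (0:ℝ) (2 * δ) → t ∈ Icc (0:ℝ) (2 * δ) → s ≤ t → t - s ≤ ε₁ →
      dist (c s) (c t) = t - s := by
    intro s t hs ht hst hle
    rcases le_total t δ with h | h
    · rw [hc1 s (hst.trans h), hc1 t h, IsometryEquiv.dist_eq,
        hγ (δ - s) ⟨by linarith, by linarith [hs.1]⟩ (δ - t) ⟨by linarith, by linarith [ht.1]⟩,
        show δ - s - (δ - t) = t - s by ring, abs_of_nonneg (by linarith)]
    · rcases le_total s δ with h' | h'
      · rw [hc1 s h', hc2 t h, dist_comm, hr₁ (t - δ) (δ - s) (by linarith) (by linarith)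
          (by linarith) (by linarith)]
        ring
      · rw [hc2 s h', hc2 t h, hγ (s - δ) ⟨by linarith, by linarith [hs.2]⟩ (t - δ)
          ⟨by linarith, by linarith [ht.2]⟩, show s - δ - (t - δ) = -(t - s) by ring, abs_neg,
          abs_of_nonneg (by linarith)]
  have h := glue (ψ * φ) k hk hφψ c (2 * δ) (min ε₁ ε₂) (by linarith) (lt_min hε₁ hε₂)
    (by
      intro s hs t ht hst
      have hst' := hst.trans (min_le_left _ _)
      rcases le_total s t with h | h
      · rw [abs_sub_comm, abs_of_nonneg (by linarith)] at hst' ⊢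
        exact key s t hs ht h hst'
      · rw [abs_of_nonneg (by linarith)] at hst' ⊢
        rw [dist_comm]
        exact key t s ht hs h hst')
    (by
      intro s t hs ht hst hs' ht'
      have hst' := hst.trans (min_le_right _ _)
      rw [hc2 (2 * δ - s) (by linarith), hc1 t (by linarith), IsometryEquiv.mul_apply, hφ,
        show 2 * δ - s - δ = δ - s by ring]
      exact hr₂ s t hs ht (by linarith) (by linarith))
  obtain ⟨Γ, ℓ, hℓ, hℓ', hrest⟩ := h
  refine ⟨Γ, ℓ, hℓ, hℓ'.trans ?_, hrest⟩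
  have h6 := hmin' a₀ ha₀ b₀ hb₀
  have hk' : (0:ℝ) ≤ k := Nat.cast_nonneg k
  nlinarith [mul_le_mul_of_nonneg_left h6 hk']

end Pool.Agent.R770.IV
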