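import Pool.Agent.R770.IV.Basic

/-!
# Short closed geodesics from isometric involutions: statements for maps
-/

set_option autoImplicit false

open Set Topology

noncomputable section

namespace Pool.Agent.R770.IV

open Pool.Agent.Y489.GE

variable {X : Type} [MetricSpace X]

lemma ClosedGeod.mono {L L' : ℝ} (h : ClosedGeod X L) (hL : L ≤ L') : ClosedGeod X L' := by
  obtain ⟨γ, ℓ, h1, h2, h3⟩ := h
  exact ⟨γ, ℓ, h1, h2.trans hL, h3⟩

lemma pow_apply' (g : X ≃ᵢ X) (k : ℕ) (x : X) : (g ^ k) x = (⇑g)^[k] x := by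
  induction k generalizing x with
  | zero => simp
  | succ k ih => rw [pow_succ, IsometryEquiv.mul_apply, ih, Function.iterate_succ_apply]

/-- isometries of finite order without fixed points -/
theorem cyclic' [CompactSpace X] (hX : GeodSpace X) (φ : X → X) (hφ : Isometry φ) (k : ℕ)
    (hk : 0 < k) (hg : ∀ x, φ^[k] x = x) (hfix : ∀ x, φ x ≠ x) (x₀ : X) :
    ClosedGeod X (k * dist x₀ (φ x₀)) := by
  obtain ⟨m, rfl⟩ : ∃ m, k = m + 1 := ⟨k - 1, by omega⟩
  let g : X ≃ᵢ X := IsometryEquiv.mk' φ (φ^[m])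
    (fun x => by have h := hg x; rwa [Function.iterate_succ_apply'] at h) hφ
  have hgφ : ⇑g = φ := rfl
  have hgk : g ^ (m + 1) = 1 := by
    ext x
    rw [pow_apply', hgφ, hg]
    rfl
  exact cyclic hX g (m + 1) hk hgk (fun x => by rw [hgφ]; exact hfix x) x₀

/-- the dihedral case -/
theorem dihedral' [CompactSpace X] (hX : GeodSpace X) {r : ℝ} (hr : 0 < r) (hU : UniqGeod X r)
    (φ ψ : X → X) (iφ : Isometry φ) (iψ : Isometry ψ) (hφ : ∀ x, φ (φ x) = x)
    (hψ : ∀ x, ψ (ψ x) = x) (k : ℕ) (hk : 0 < k)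
    (hφψ : ∀ x, (ψ ∘ φ)^[k] x = x) (A B : Set X) (hA : A ⊆ {x | φ x = x})
    (hB : B ⊆ {x | ψ x = x})
    (hAc : IsClosed A) (hBc : IsClosed B) (hA' : IsClosed ({x | φ x = x} \ A))
    (hB' : IsClosed ({x | ψ x = x} \ B)) (hd : Disjoint A B) (a₀ b₀ : X) (ha₀ : a₀ ∈ A)
    (hb₀ : b₀ ∈ B) : ClosedGeod X (2 * k * dist a₀ b₀) := by
  let f : X ≃ᵢ X := IsometryEquiv.mk' φ φ hφ iφ
  let g : X ≃ᵢ X := IsometryEquiv.mk' ψ ψ hψ iψ
  have hgf : ⇑(g * f) = ψ ∘ φ := rfl
  have hk' : (g * f) ^ k = 1 := by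
    ext x
    rw [pow_apply', hgf, hφψ]
    rfl
  exact dihedral hX hr hU f g hφ hψ k hk hk' A B hA hB hAc hBc hA' hB' hd a₀ b₀ ha₀ hb₀

lemma dist_le_diam_univ [CompactSpace X] (x y : X) :
    dist x y ≤ Metric.diam (univ : Set X) :=
  Metric.dist_le_diam_of_mem isCompact_univ.isBounded (mem_univ x) (mem_univ y)

/-- two involutions without common fixed point -/
theorem dihedral_disjoint [CompactSpace X] [Nonempty X] (hX : GeodSpace X) {r : ℝ} (hr : 0 < r)
    (hU : UniqGeod X r) (φ ψ : X → X) (iφ : Isometry φ) (iψ : Isometry ψ)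
    (hφ : ∀ x, φ (φ x) = x) (hψ : ∀ x, ψ (ψ x) = x) (k : ℕ) (hk : 0 < k)
    (hφψ : ∀ x, (ψ ∘ φ)^[k] x = x) (hne : ∀ x, ¬ (φ x = x ∧ ψ x = x)) :
    ClosedGeod X (2 * k * Metric.diam (univ : Set X)) := by
  have hk1 : (1:ℝ) ≤ k := by exact_mod_cast hk
  have hdiam : 0 ≤ Metric.diam (univ : Set X) := Metric.diam_nonneg
  have hfree : ∀ f : X → X, Isometry f → (∀ x, f (f x) = x) → (∀ x, f x ≠ x) →
      ClosedGeod X (2 * k * Metric.diam (univ : Set X)) := by
    intro f hf hff hffix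
    obtain ⟨x₀⟩ := ‹Nonempty X›
    have h := cyclic' hX f hf 2 two_pos (fun x => by simp [hff]) hffix x₀
    refine ClosedGeod.mono h ?_
    have := dist_le_diam_univ x₀ (f x₀)
    push_cast
    nlinarith
  by_cases h1 : ∃ a, φ a = a
  · by_cases h2 : ∃ b, ψ b = b
    · obtain ⟨a, ha⟩ := h1
      obtain ⟨b, hb⟩ := h2
      have h := dihedral' hX hr hU φ ψ iφ iψ hφ hψ k hk hφψ {x | φ x = x} {x | ψ x = x}
        subset_rfl subset_rfl (isClosed_eq iφ.continuous continuous_id)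
        (isClosed_eq iψ.continuous continuous_id) (by rw [sdiff_self]; exact isClosed_empty)
        (by rw [sdiff_self]; exact isClosed_empty)
        (Set.disjoint_left.2 fun x hx hx' => hne x ⟨hx, hx'⟩) a b ha hb
      refine ClosedGeod.mono h ?_
      exact mul_le_mul_of_nonneg_left (dist_le_diam_univ a b) (by positivity)
    · push Not at h2
      exact hfree ψ iψ hψ h2
  · push Not at h1
    exact hfree φ iφ hφ h1

/-- an involution whose fixed set is empty or disconnected -/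
theorem involution [CompactSpace X] [Nonempty X] (hX : GeodSpace X) {r : ℝ} (hr : 0 < r)
    (hU : UniqGeod X r) (φ : X → X) (iφ : Isometry φ) (hφ : ∀ x, φ (φ x) = x)
    (hne : ¬ IsConnected {x | φ x = x}) : ClosedGeod X (2 * Metric.diam (univ : Set X)) := by
  have hone : ∀ x, (φ ∘ φ)^[1] x = x := fun x => by simp [hφ]
  by_cases h1 : ({x | φ x = x} : Set X).Nonempty
  · have h2 : ¬ IsPreconnected {x | φ x = x} := fun h => hne ⟨h1, h⟩
    rw [isPreconnected_closed_iff] at h2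
    push Not at h2
    obtain ⟨t, t', ht, ht', hsub, ⟨a, ha, hat⟩, ⟨b, hb, hbt⟩, hem⟩ := h2
    have hF : IsClosed {x | φ x = x} := isClosed_eq iφ.continuous continuous_id
    have hdisj : ∀ x, φ x = x → x ∈ t → x ∉ t' := by
      intro x hx hxt hxt'
      have : x ∈ {x | φ x = x} ∩ (t ∩ t') := ⟨hx, hxt, hxt'⟩
      rw [hem] at this
      exact this
    have hA : {x | φ x = x} \ ({x | φ x = x} ∩ t) = {x | φ x = x} ∩ t' := by
      ext x
      constructor
      · rintro ⟨hx, hx'⟩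
        rcases hsub hx with h | h
        · exact absurd ⟨hx, h⟩ hx'
        · exact ⟨hx, h⟩
      · rintro ⟨hx, hx'⟩
        exact ⟨hx, fun h => hdisj x hx h.2 hx'⟩
    have hB : {x | φ x = x} \ ({x | φ x = x} ∩ t') = {x | φ x = x} ∩ t := by
      ext x
      constructor
      · rintro ⟨hx, hx'⟩
        rcases hsub hx with h | h
        · exact ⟨hx, h⟩
        · exact absurd ⟨hx, h⟩ hx'
      · rintro ⟨hx, hx'⟩
        exact ⟨hx, fun h => hdisj x hx hx' h.2⟩
    have h := dihedral' hX hr hU φ φ iφ iφ hφ hφ 1 one_pos hone ({x | φ x = x} ∩ t)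
      ({x | φ x = x} ∩ t') inter_subset_left inter_subset_left (hF.inter ht) (hF.inter ht')
      (by rw [hA]; exact hF.inter ht') (by rw [hB]; exact hF.inter ht)
      (Set.disjoint_left.2 fun x hx hx' => hdisj x hx.1 hx.2 hx'.2) a b ⟨ha, hat⟩ ⟨hb, hbt⟩
    refine ClosedGeod.mono h ?_
    have := dist_le_diam_univ a b
    push_cast
    linarith
  · rw [Set.not_nonempty_iff_eq_empty] at h1
    obtain ⟨x₀⟩ := ‹Nonempty X›
    have hfix : ∀ x, φ x ≠ x := by
      intro x hx
      have : x ∈ ({x | φ x = x} : Set X) := hx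
      rw [h1] at this
      exact this
    have h := cyclic' hX φ iφ 2 two_pos (fun x => by simp [hφ]) hfix x₀
    refine ClosedGeod.mono h ?_
    have := dist_le_diam_univ x₀ (φ x₀)
    push_cast
    linarith

end Pool.Agent.R770.IV
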